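import Mathlib
import Pool.Agent.Lib.MP_bbe012_lc.CD.Defs

/-!
# Fair coins with cubic polynomials on polydiscs (definitions)

The variables in intervals are replaced by variables in discs: `2 |w|^2 - 1` is uniformly distributed
in `(-1, 1)` if `w` is uniformly distributed in the unit disc. The rounds of the folder CD are used
without intervals (`n = 0`).
-/

namespace Pool.Agent.Lib.MP_bbe012_lc.CE

open MeasureTheory Set HC CV CD

/-- Substitution of the polynomials `L 0, ..., L (m - 1)` for the variables. -/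
def sbC (m : ℕ) (L : ℕ → PCode) (p : PCode) : PCode :=
  p.flatMap fun t => pcMul [(t.1, [])] (pcProdRange m fun i => pcPow (L i) (t.2.getD i 0))

/-- The polynomial `2 (x_i^2 + x_(i+1)^2) - 1`. -/
def dq (i : ℕ) : PCode := pcMul (pcNat 2) (nsq i) ++ pcNeg (pcNat 1)

/-- The old variable number `i` in terms of the new ones. Old variables: `n1` intervals, `n2` discs,
further intervals. New variables: one disc for every interval and for every disc, in the same order. -/
def lT (n1 n2 i : ℕ) : PCode :=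
  if i < n1 then dq (2 * i) else if i < n1 + 2 * n2 then pcVar (i + n1) else dq (2 * (i - n2))

/-- The polynomial `2 T (|w_N|^2 + ... + |w_(N+m-1)|^2)`, where `w_j = (x_(2j), x_(2j+1))`. -/
def sigC (N m T : ℕ) : PCode := pcMul (pcNat (2 * T)) (pcSumRange m fun i => nsq (2 * (N + i)))

/-- The initial sum of products. -/
def s0E (n1 n2 r m : ℕ) (P Q : PCode) (rows : List (List QCode)) : SCode :=
  (sbC (n1 + 2 * n2 + r + 1) (lT n1 n2) (g1C (n1 + 2 * n2) r P Q rows)).map exL ++
    (sbC (n1 + 2 * n2 + r + 1) (lT n1 n2) (g2C (n1 + 2 * n2) r P Q rows)).map fun t =>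
      sigC (n1 + n2 + r + 1) m (t0C (n1 + 2 * n2) r P Q rows) :: exL t

/-- The number of discs of the initial state. -/
def nDE (n1 n2 : ℕ) (c : CC) : ℕ := n1 + n2 + c.1.1.1 + 1 + 2 * c.1.1.2

/-- The initial state. -/
def st0E (n1 n2 : ℕ) (P Q : PCode) (c : CC) : St :=
  ((nDE n1 n2 c, s0E n1 n2 c.1.1.1 (2 * c.1.1.2) P Q c.2.1.2),
    q0D n1 n2 c.1.1.1 (2 * c.1.1.2) P Q c.2.1.2)

/-- The final state of the rounds. -/
def stFE (n1 n2 : ℕ) (P Q : PCode) (c : CC) : St :=
  runD 0 c.1.1.2 (st0E n1 n2 P Q c) (c.1.1.2 - 2)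

/-- The polynomial before the last step. -/
def hFE (n1 n2 : ℕ) (P Q : PCode) (c : CC) : PCode :=
  flat (trS (0 + 2 * (stFE n1 n2 P Q c).1.1) (stFE n1 n2 P Q c).1.2)

/-- The cubic polynomial (with the numbers `0` of intervals and `m` of discs) attached to a
certificate. -/
def coinE (n1 n2 : ℕ) (P Q : PCode) (c : CC) : (ℕ × ℕ) × PCode :=
  ((0, (stFE n1 n2 P Q c).1.1 + 4),
    gadC 0 (stFE n1 n2 P Q c).1.1 (hFE n1 n2 P Q c) (stFE n1 n2 P Q c).2)

/-- The verification of a certificate. -/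
def dCheckE (n1 n2 : ℕ) (P Q : PCode) (c : CC) : Prop :=
  hcCheck (n1 + 2 * n2) P Q (toHC (n1 + 2 * n2) P Q c) ∧
    mu (s0E n1 n2 c.1.1.1 (2 * c.1.1.2) P Q c.2.1.2) + 2 ≤ c.1.1.2

instance (n1 n2 : ℕ) (P Q : PCode) (c : CC) : Decidable (dCheckE n1 n2 P Q c) := by
  unfold dCheckE; infer_instance

/-- The search for a certificate. -/
def eSearch (R : ℕ × PCode × PCode) : Part CC :=
  Nat.rfindOpt fun m => (Encodable.decode (α := CC) m).bind fun c =>
    if dCheckE R.1 0 R.2.1 R.2.2 c then some c else none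

/-- The cubic polynomial for a rational function on a cube (`n2 = 0`). -/
def coinRE (R : ℕ × PCode × PCode) (c : CC) : (ℕ × ℕ) × PCode := coinE R.1 0 R.2.1 R.2.2 c

end Pool.Agent.Lib.MP_bbe012_lc.CE
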