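import Mathlib
import Pool.Agent.Lib.MP_bbe012_lc.CE.Defs
import Pool.Agent.Lib.MP_bbe012_lc.CD.CertD

/-!
# The certificates
-/

namespace Pool.Agent.Lib.MP_bbe012_lc.CE

open MvPolynomial HC CV CD

theorem CertE_sbC (m : ℕ) (L : ℕ → PCode) (p : PCode) : (sbC m L p).map Prod.snd =
    (p.map Prod.snd).flatMap fun e =>
      (pcMul [(qnat 0, [])] (pcProdRange m fun i => pcPow (L i) (e.getD i 0))).map Prod.snd := by
  unfold sbC
  rw [List.map_flatMap, List.flatMap_map]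
  refine congrArg (fun f => List.flatMap f p) (funext fun t => ?_)
  exact Sh.mul (Sh.const _ _) (Sh.refl _)

/-- The exponents of the terms of `sbC m L p` depend only on the exponents of the terms of `p`: the code is
`p.flatMap fun t => pcMul [(t.1, [])] (..)`, `Shape_mul` (CV/Shape.lean). -/
theorem Sh_sbC {p p' : PCode} (h : Sh p p') (m : ℕ) (L : ℕ → PCode) : Sh (sbC m L p) (sbC m L p') := by
  unfold Sh at *
  rw [CertE_sbC, CertE_sbC, h]

/-- As `mu_s0C_congr` (CV/Shape.lean; copy the proofs of the facts `Sh (g1C ..) (g1C ..)` and `Sh (g2C ..) (g2C ..)`), `Sh_sbC`,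
`mu_map_exL`, `mu_map_cons_exL`. -/
theorem mu_s0E_congr (n1 n2 r m m' : ℕ) (P Q : PCode) {rows rows' : List (List QCode)}
    (h : rows.length = rows'.length) :
    mu (s0E n1 n2 r m P Q rows) = mu (s0E n1 n2 r m' P Q rows') := by
  obtain ⟨n, hn⟩ : ∃ n, n = n1 + 2 * n2 := ⟨_, rfl⟩
  have hv : ∀ j, Sh (vC n r P Q rows j) (vC n r P Q rows' j) := by
    intro j
    unfold vC
    rw [h]
    exact Sh.mul (Sh.refl _) (Sh.mul (Sh.refl _) (Sh.sumRange fun i =>
      Sh.mul (Sh.const _ _) (Sh.refl _)))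
  have h1 : Sh (a1C n r P Q rows) (a1C n r P Q rows') :=
    Sh.sumRange fun j => Sh.mul (hv j) (Sh.refl _)
  have h2 : Sh (a2C n r P Q rows) (a2C n r P Q rows') :=
    Sh.append (Sh.mul (Sh.nat _ _) (Sh.refl _)) (Sh.mul (Sh.refl _) h1)
  have h3 : Sh (g1C n r P Q rows) (g1C n r P Q rows') :=
    Sh.append (Sh.mul (Sh.refl _) h2)
      (Sh.neg (Sh.mul (Sh.refl _) (Sh.mul (Sh.nat _ _) (Sh.refl _))))
  have h4 : Sh (g2C n r P Q rows) (g2C n r P Q rows') := Sh.neg (Sh.mul h2 h2)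
  unfold s0E
  rw [← hn, mu_append, mu_append, mu_map_exL (Sh_sbC h3 _ _), mu_map_cons_exL _ _ (Sh_sbC h4 _ _)]

/-- As `exists_dCheck` in CD/CertD.lean. -/
theorem exists_dCheckE {n1 n2 : ℕ} (P : PCode) {Q : PCode} (hQ : pcPoly (n1 + 2 * n2) Q ≠ 0) :
    ∃ c : CC, dCheckE n1 n2 P Q c := by
  obtain ⟨n, hn⟩ : ∃ n, n = n1 + 2 * n2 := ⟨_, rfl⟩
  rw [← hn] at hQ
  obtain ⟨r, D, H⟩ := exists_special hQ (pcPoly n P)
  obtain ⟨κ, hκ⟩ : ∃ κ, κ = 3 + mu (s0E n1 n2 r 0 P Q (List.replicate D [])) := ⟨_, rfl⟩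
  obtain ⟨K, A, ρ, g, hid⟩ := H (nN r κ)
  obtain ⟨Ac, hAc⟩ := exists_polyOf A
  choose rc hrc using fun i : ℕ => exists_rowP (ρ i)
  choose gc hgc using fun l : Fin n => exists_pcPoly (g l)
  obtain ⟨rows, hrows⟩ : ∃ rows : List (List QCode), rows = (List.range D).map rc := ⟨_, rfl⟩
  have hlen : rows.length = D := by rw [hrows]; simp
  have hgetD : ∀ i < D, rows.getD i [] = rc i := by
    intro i hi
    rw [hrows, List.getD_eq_getElem?_getD, List.getElem?_map, List.getElem?_range hi]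
    rfl
  have hκ1 : 1 ≤ κ := by omega
  refine ⟨(((r, κ), K), ((Ac, rows), List.ofFn gc)), ?_, ?_⟩
  · rw [← hn]
    change hcCheck n P Q (((r, nN r κ), K), (Ac, wC n P Q rows), List.ofFn gc)
    rw [hcCheck_iff, hAc, pcPoly_wC, hlen]
    refine ⟨?_, ?_⟩
    · have h5 : 5 ≤ 2 * (2 * κ) + 1 := by omega
      have h6 : (r + 1) * 5 ≤ (r + 1) * (2 * (2 * κ) + 1) := Nat.mul_le_mul_left _ h5
      unfold nN
      omega
    · have hgl : (fun l : Fin n => pcPoly (n + 1) ((List.ofFn gc).getD l [])) = g := by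
        ext1 l
        rw [← hgc l]
        congr 1
        simp [List.getD_eq_getElem?_getD]
      have hs : (∑ i ∈ Finset.range D, beta n (rowP (rows.getD i [])) * hP (pcPoly n Q) ^ i) =
          ∑ i ∈ Finset.range D, beta n (ρ i) * hP (pcPoly n Q) ^ i := by
        refine Finset.sum_congr rfl fun i hi => ?_
        rw [hgetD i (Finset.mem_range.mp hi), hrc]
      rw [hgl, hs]
      exact hid
  · change mu (s0E n1 n2 r (2 * κ) P Q rows) + 2 ≤ κ
    have h7 : rows.length = (List.replicate D ([] : List QCode)).length := by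
      rw [hlen]; simp
    rw [mu_s0E_congr n1 n2 r (2 * κ) 0 P Q h7]
    omega

theorem mem_eSearch {R : ℕ × PCode × PCode} {c : CC} (h : c ∈ eSearch R) :
    dCheckE R.1 0 R.2.1 R.2.2 c := by
  obtain ⟨m, hm⟩ := Nat.rfindOpt_spec h
  obtain ⟨c', _, h2⟩ := Option.bind_eq_some_iff.mp hm
  split_ifs at h2 with hc'
  rw [← Option.some_injective _ h2]
  exact hc'

theorem dom_eSearch {R : ℕ × PCode × PCode} (hQ : pcPoly R.1 R.2.2 ≠ 0) : (eSearch R).Dom := by
  obtain ⟨c, hc⟩ := exists_dCheckE (n1 := R.1) (n2 := 0) R.2.1 (Q := R.2.2) hQ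
  refine Nat.rfindOpt_dom.mpr ⟨Encodable.encode c, c, ?_⟩
  rw [Encodable.encodek]
  change (if dCheckE R.1 0 R.2.1 R.2.2 c then some c else none) = some c
  rw [if_pos hc]

end Pool.Agent.Lib.MP_bbe012_lc.CE
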