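import Mathlib
import Pool.Agent.Lib.MP_bbe012_lc.CE.Defs
import Pool.Agent.Lib.MP_bbe012_lc.CD.DegD

/-!
# The degree of the final polynomial
-/

namespace Pool.Agent.Lib.MP_bbe012_lc.CE

open MvPolynomial HC CV CD

/-- In every product either all factors have degree at most one, or the first one has degree at most two, the
second one has degree zero, and the other ones have degree at most one. -/
def Deg2 (M : ℕ) (S : SCode) : Prop :=
  ∀ L ∈ S, (∀ p ∈ L, (pcPoly M p).totalDegree ≤ 1) ∨
    ∃ (a b : PCode) (L' : List PCode), L = a :: b :: L' ∧ (pcPoly M a).totalDegree ≤ 2 ∧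
      (pcPoly M b).totalDegree = 0 ∧ ∀ p ∈ L', (pcPoly M p).totalDegree ≤ 1

/-- `deg_trunc` (CV/Deg.lean; for the second factor with `d = 0`). -/
theorem deg2_trS {n M : ℕ} (h : n ≤ M) {S : SCode} (hS : Deg2 n S) : Deg2 M (trS n S) := by
  intro L hL
  unfold trS at hL
  obtain ⟨K, hK, rfl⟩ := List.mem_map.1 hL
  rcases hS K hK with h1 | ⟨a, b, L', rfl, ha, hb, hL'⟩
  · left
    intro p hp
    obtain ⟨q, hq, rfl⟩ := List.mem_map.1 hp
    exact deg_trunc h (h1 q hq)
  · right
    refine ⟨pcTrunc n a, pcTrunc n b, L'.map (pcTrunc n), rfl, deg_trunc h ha, ?_, ?_⟩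
    · exact Nat.le_zero.1 (deg_trunc h hb.le)
    · intro p hp
      obtain ⟨q, hq, rfl⟩ := List.mem_map.1 hp
      exact deg_trunc h (hL' q hq)

private theorem DegE_negL {M : ℕ} {L : List PCode}
    (hL : (∀ p ∈ L, (pcPoly M p).totalDegree ≤ 1) ∨
      ∃ (a b : PCode) (L' : List PCode), L = a :: b :: L' ∧ (pcPoly M a).totalDegree ≤ 2 ∧
        (pcPoly M b).totalDegree = 0 ∧ ∀ p ∈ L', (pcPoly M p).totalDegree ≤ 1) :
    (∀ p ∈ negL L, (pcPoly M p).totalDegree ≤ 1) ∨
      ∃ (a b : PCode) (L' : List PCode), negL L = a :: b :: L' ∧ (pcPoly M a).totalDegree ≤ 2 ∧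
        (pcPoly M b).totalDegree = 0 ∧ ∀ p ∈ L', (pcPoly M p).totalDegree ≤ 1 := by
  rcases hL with h1 | ⟨a, b, L', rfl, ha, hb, hL'⟩
  · exact Or.inl (Deg_negL h1)
  · right
    refine ⟨pcNeg a, b, L', rfl, ?_, hb, hL'⟩
    rw [deg_neg]
    exact ha

/-- Compare `Deg_nextS` in CV/Deg.lean. -/
theorem deg2_nextS {M n T Y : ℕ} {L : List PCode} {R : SCode}
    (hL : (∀ p ∈ L, (pcPoly M p).totalDegree ≤ 1) ∨
      ∃ (a b : PCode) (L' : List PCode), L = a :: b :: L' ∧ (pcPoly M a).totalDegree ≤ 2 ∧
        (pcPoly M b).totalDegree = 0 ∧ ∀ p ∈ L', (pcPoly M p).totalDegree ≤ 1)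
    (hR : Deg2 M R) : Deg2 M (nextS n T Y L R) := by
  intro N hN
  unfold nextS at hN
  rcases List.mem_append.1 hN with h1 | h1
  · obtain ⟨K, hK, rfl⟩ := List.mem_map.1 h1
    exact DegE_negL (hR K hK)
  · rcases hL with hL | ⟨a, b, L', rfl, ha, hb, hL'⟩
    · left
      refine Deg_nextS (m := M) (n := n) (T := T) (Y := Y) (L := L) (R := []) hL ?_ N ?_
      · intro K hK
        simp at hK
      · unfold nextS
        exact List.mem_append_right _ h1
    · simp only [List.mem_cons, List.not_mem_nil, or_false] at h1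
      rcases h1 with h1 | h1 | h1 | h1 | h1 | h1
      · right
        refine ⟨a, b, [pcNeg (uV (n + 2) Y)], h1, ha, hb, ?_⟩
        intro p hp
        simp only [List.mem_cons, List.not_mem_nil, or_false] at hp
        rw [hp, deg_neg]
        exact Deg_uV M _ _
      · left
        subst h1
        intro p hp
        rcases List.mem_cons.1 hp with h2 | h2
        · rw [h2]
          refine deg_append (Deg_uV M _ _) ?_
          rw [deg_neg]
          exact Deg_2uV M _ _
        · exact hL' p h2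
      · left
        subst h1
        intro p hp
        simp only [List.mem_cons, List.not_mem_nil, or_false] at hp
        rcases hp with h2 | h2
        · rw [h2]
          exact Deg_2uV M _ _
        · rw [h2]
          exact Deg_uV M _ _
      · left
        subst h1
        intro p hp
        simp only [List.mem_cons, List.not_mem_nil, or_false] at hp
        rcases hp with h2 | h2
        · rw [h2, deg_neg]
          exact Deg_uV M _ _
        · rw [h2]
          exact Deg_uV M _ _
      · left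
        subst h1
        intro p hp
        simp only [List.mem_cons, List.not_mem_nil, or_false] at hp
        rcases hp with h2 | h2
        · rw [h2, deg_neg]
          exact Deg_uV M _ _
        · rw [h2]
          exact Deg_uV M _ _
      · left
        subst h1
        intro p hp
        simp only [List.mem_cons, List.not_mem_nil, or_false, or_self] at hp
        rw [hp]
        exact Deg_uV M _ _

private theorem DegE_pick {S : SCode} : (pick S).1 = [] ∨ (pick S).1 ∈ S := by
  induction S with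
  | nil => exact Or.inl rfl
  | cons L S ih =>
    rw [Deg_pick_cons]
    split_ifs with h
    · exact Or.inr List.mem_cons_self
    · rcases ih with h1 | h1
      · exact Or.inl h1
      · exact Or.inr (List.mem_cons_of_mem _ h1)

/-- Compare `deg1_step` (CV/Deg.lean) and the corresponding lemma in CD/RunD.lean. The chosen list `(pick S).1` is an element of `S` or empty
(by induction on `S`, as in `pick_mem`). -/
theorem deg2_stepD {n k : ℕ} {s : St} (h : Deg2 (n + 2 * s.1.1) s.1.2) :
    Deg2 (n + 2 * (stepD n k s).1.1) (stepD n k s).1.2 := by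
  have h1 : Deg2 (n + 2 * (s.1.1 + 2)) (trS (n + 2 * s.1.1) s.1.2) := deg2_trS (by omega) h
  have h2 := pick_mem (S := trS (n + 2 * s.1.1) s.1.2)
  change Deg2 (n + 2 * (s.1.1 + 2)) (nextS (n + 2 * s.1.1) _ _ _ _)
  refine deg2_nextS ?_ ?_
  · rcases DegE_pick (S := trS (n + 2 * s.1.1) s.1.2) with h3 | h3
    · left
      intro p hp
      rw [h3] at hp
      simp at hp
    · exact h1 _ h3
  · intro L hL
    exact h1 L (h2.2 L hL)

theorem deg2_runD {n κ : ℕ} {s : St} (h : Deg2 (n + 2 * s.1.1) s.1.2) (j : ℕ) :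
    Deg2 (n + 2 * (runD n κ s j).1.1) (runD n κ s j).1.2 := by
  induction j with
  | zero => exact h
  | succ j ih =>
    rw [RunD_succ]
    exact deg2_stepD ih

/-- Compare `deg_flat` in CV/Deg.lean: all lists have at most three elements; in the second case the degree is at most `2 + 0 + 1`. -/
theorem deg_flat2 {M : ℕ} {S : SCode} (h : Deg2 M S) (hmu : mu S = 0) :
    (pcPoly M (flat S)).totalDegree ≤ 3 := by
  induction S with
  | nil =>
    have h1 : flat [] = [] := rfl
    rw [h1]
    simp
  | cons L S ih =>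
    rw [Deg_mu_cons] at hmu
    have h1 : flat (L :: S) = pcProdL L ++ flat S := by
      unfold flat
      rw [List.flatMap_cons]
    rw [h1]
    refine deg_append ?_ (ih (fun M hM => h M (List.mem_cons_of_mem _ hM)) (by omega))
    rcases h L List.mem_cons_self with h2 | ⟨a, b, L', rfl, ha, hb, hL'⟩
    · exact (Deg_prodL h2).trans (by omega)
    · have h3 : pcProdL (a :: b :: L') = pcMul a (pcMul b (pcProdL L')) := rfl
      rw [h3]
      have h4 := deg_mul ha (deg_mul hb.le (Deg_prodL hL'))
      simp only [List.length_cons] at hmu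
      exact h4.trans (by omega)

private theorem DegE_sigC (M N m T : ℕ) : (pcPoly M (sigC N m T)).totalDegree ≤ 2 := by
  unfold sigC
  have h2 : (pcPoly M (pcSumRange m fun i => nsq (2 * (N + i)))).totalDegree ≤ 2 := by
    rw [pcPoly_sumRange]
    exact (totalDegree_finsetSum _ _).trans (Finset.sup_le fun i _ => deg_nsq M _)
  have h := deg_mul (m := M) (a := 0) (b := 2) (Deg_nat M (2 * T)).le h2
  simpa using h

/-- `Deg_exL` (CV/Deg.lean), `deg_nsq` (CD/DegD.lean), sums as in `Deg_linC`. For the second part the list is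
`sigC .. :: [(t.1, [])] :: ..` (definition of `exL`), and the other factors are variables. -/
theorem deg2_s0E (M n1 n2 r m : ℕ) (P Q : PCode) (rows : List (List QCode)) :
    Deg2 M (s0E n1 n2 r m P Q rows) := by
  intro L hL
  unfold s0E at hL
  rcases List.mem_append.1 hL with h1 | h1
  · obtain ⟨t, _, rfl⟩ := List.mem_map.1 h1
    exact Or.inl (Deg_exL M t)
  · obtain ⟨t, _, rfl⟩ := List.mem_map.1 h1
    right
    refine ⟨_, [(t.1, [])], (List.range t.2.length).flatMap fun i => List.replicate (t.2.getD i 0) (pcVar i),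
      rfl, DegE_sigC M _ _ _, deg_const M t.1, ?_⟩
    intro p hp
    obtain ⟨i, _, hi⟩ := List.mem_flatMap.1 hp
    rw [List.eq_of_mem_replicate hi]
    exact deg_var M i

/-- As `deg_coinD` in CD/DegD.lean. -/
theorem deg_coinE {n1 n2 : ℕ} {P Q : PCode} {c : CC} (hc : dCheckE n1 n2 P Q c)
    (hq : CC0 (stFE n1 n2 P Q c).2) :
    (pcPoly ((coinE n1 n2 P Q c).1.1 + 2 * (coinE n1 n2 P Q c).1.2) (coinE n1 n2 P Q c).2).totalDegree ≤
      3 := by
  change (pcPoly (0 + 2 * ((stFE n1 n2 P Q c).1.1 + 4))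
    (gadC 0 (stFE n1 n2 P Q c).1.1 (hFE n1 n2 P Q c) (stFE n1 n2 P Q c).2)).totalDegree ≤ 3
  refine deg_gadC ?_ hq
  have h0 : Deg2 (0 + 2 * (st0E n1 n2 P Q c).1.1) (st0E n1 n2 P Q c).1.2 :=
    deg2_s0E _ _ _ _ _ _ _ _
  have h1 : Deg2 (0 + 2 * (stFE n1 n2 P Q c).1.1) (stFE n1 n2 P Q c).1.2 :=
    deg2_runD h0 _
  have h2 : mu (stFE n1 n2 P Q c).1.2 = 0 := by
    have h3 : mu (stFE n1 n2 P Q c).1.2 ≤ mu (st0E n1 n2 P Q c).1.2 - (c.1.1.2 - 2) :=
      mu_runD _ _ _ _
    have h4 : mu (st0E n1 n2 P Q c).1.2 =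
        mu (s0E n1 n2 c.1.1.1 (2 * c.1.1.2) P Q c.2.1.2) := rfl
    have h5 := hc.2
    omega
  have h6 : Deg2 (0 + 2 * ((stFE n1 n2 P Q c).1.1 + 4))
      (trS (0 + 2 * (stFE n1 n2 P Q c).1.1) (stFE n1 n2 P Q c).1.2) :=
    deg2_trS (by omega) h1
  refine deg_flat2 h6 ?_
  rw [Deg_mu_trS]
  exact h2

end Pool.Agent.Lib.MP_bbe012_lc.CE
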