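import Mathlib
import Pool.Agent.Lib.MP_bbe012_lc.CE.Defs
import Pool.Agent.Lib.MP_bbe012_lc.CV.TopB

/-!
# The value of the initial polynomial
-/

namespace Pool.Agent.Lib.MP_bbe012_lc.CE

open MeasureTheory Set HC CV CD

/-- Induction on `p`: `pcEval_cons`, `pcEval_mul`, `pcEval_prodRange`, `pcEval_pow` (compare `pcPoly_subst` in Adv.lean, which is not imported). -/
theorem pcEval_sbC (M m : ℕ) (L : ℕ → PCode) (p : PCode) (z : Fin M → ℝ) :
    pcEval M (sbC m L p) z = pcEval m p fun i => pcEval M (L i) z := by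
  induction p with
  | nil =>
    have h : sbC m L [] = [] := rfl
    rw [h, pcEval_nil, pcEval_nil]
  | cons t p ih =>
    have h : sbC m L (t :: p) = pcMul [(t.1, [])] (pcProdRange m fun i => pcPow (L i) (t.2.getD i 0)) ++
        sbC m L p := by
      rw [sbC, sbC, List.flatMap_cons]
    rw [h, pcEval_append, pcEval_mul, pcEval_prodRange, ih, pcEval_cons (p := p), pcEval_cons, pcEval_nil,
      add_zero]
    have h1 : ∏ i : Fin M, z i ^ ([] : List ℕ).getD (i : ℕ) 0 = 1 := by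
      refine Finset.prod_eq_one fun j _ => ?_
      rw [List.getD_nil, pow_zero]
    rw [h1, mul_one]
    congr 2
    refine Finset.prod_congr rfl fun i _ => ?_
    rw [pcEval_pow]

/-- As the private `EvalS_sum_exL` in CV/EvalS.lean (copy the proof). -/
theorem pcEval_map_exL (m : ℕ) (p : PCode) (x : Fin m → ℝ) :
    pcEval m (flat (p.map exL)) x = pcEval m p x := by
  induction p with
  | nil => rfl
  | cons t A ih =>
    rw [List.map_cons, pcEval_flat_cons, ih, pcEval_exL, pcEval_cons, pcEval_cons, pcEval_nil,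
      add_zero]

/-- As the private `EvalS_sum_exL'` in CV/EvalS.lean (copy the proof). -/
theorem pcEval_map_cons_exL (m : ℕ) (l p : PCode) (x : Fin m → ℝ) :
    pcEval m (flat (p.map fun t => l :: exL t)) x = pcEval m l x * pcEval m p x := by
  induction p with
  | nil =>
    have h : flat (List.map (fun t => l :: exL t) []) = [] := rfl
    rw [h, pcEval_nil, mul_zero]
  | cons t A ih =>
    have h : pcProdL (l :: exL t) = pcMul l (pcProdL (exL t)) := rfl
    rw [List.map_cons, pcEval_flat_cons, ih, h, pcEval_mul, pcEval_exL,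
      pcEval_cons, pcEval_cons, pcEval_nil, add_zero, mul_add]

/-- `tr_a2C`, `tr_dCode`, `tr_q`, `TopB_tr_mono`, `TopB_tr_var` (CV/TopB.lean). -/
theorem tr_g1C (n r : ℕ) (P Q : PCode) (rows : List (List QCode)) :
    Tr (n + r + 1) (g1C n r P Q rows) := by
  have hle : n + r ≤ n + r + 1 := Nat.le_succ _
  unfold g1C
  exact ((TopB_tr_pow (TopB_tr_mono hle (tr_q n r Q)) (r + 1)).mul
    (TopB_tr_mono hle (tr_a2C n r P Q rows))).append
      ((TopB_tr_mono hle (tr_dCode n r Q)).mul ((Tr.nat _ _).mul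
        ((Tr.nat _ _).append (TopB_tr_var (Nat.lt_succ_self _))))).neg

theorem tr_g2C (n r : ℕ) (P Q : PCode) (rows : List (List QCode)) :
    Tr (n + r + 1) (g2C n r P Q rows) := by
  have hle : n + r ≤ n + r + 1 := Nat.le_succ _
  unfold g2C
  exact ((TopB_tr_mono hle (tr_a2C n r P Q rows)).mul (TopB_tr_mono hle (tr_a2C n r P Q rows))).neg

/-- The value of `dq`. -/
theorem EvalE_dq (M i : ℕ) (z : Fin M → ℝ) : pcEval M (dq i) z = 2 * pcEval M (nsq i) z - 1 := by
  unfold dq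
  rw [pcEval_append, pcEval_mul, pcEval_neg, pcEval_nat, pcEval_nat]
  push_cast
  ring

/-- The values of `sigC` and of `linC` agree: `lT n1 n2 (n1 + 2 n2 + r + 1 + i) = dq (2 (n1 + n2 + r + 1 + i))`. -/
theorem pcEval_sigC (n1 n2 r m T : ℕ) (z : Fin (0 + 2 * (n1 + n2 + r + 1 + m)) → ℝ) :
    pcEval (0 + 2 * (n1 + n2 + r + 1 + m)) (sigC (n1 + n2 + r + 1) m T) z =
      pcEval (n1 + 2 * n2 + r + 1 + m) (linC (n1 + 2 * n2 + r + 1) m T)
        (fun i => pcEval (0 + 2 * (n1 + n2 + r + 1 + m)) (lT n1 n2 i) z) := by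
  unfold sigC linC
  rw [pcEval_mul, pcEval_mul, pcEval_nat, pcEval_nat, Eval_sumRange, Eval_sumRange, Finset.mul_sum,
    Finset.mul_sum]
  refine Finset.sum_congr rfl fun i hi => ?_
  rw [Finset.mem_range] at hi
  rw [pcEval_append, pcEval_nat, pcEval_var (show n1 + 2 * n2 + r + 1 + i < n1 + 2 * n2 + r + 1 + m by omega)]
  have h : lT n1 n2 (n1 + 2 * n2 + r + 1 + i) = dq (2 * (n1 + n2 + r + 1 + i)) := by
    unfold lT
    rw [if_neg (by omega), if_neg (by omega)]
    congr 1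
    omega
  show _ = (T : ℝ) * ((1 : ℕ) + pcEval (0 + 2 * (n1 + n2 + r + 1 + m)) (lT n1 n2 (n1 + 2 * n2 + r + 1 + i)) z)
  rw [h, EvalE_dq]
  push_cast
  ring

/-- `pcEval_flat_append`, the two lemmas above, `pcEval_sbC`, `pcEval_s0C`, `tr_g1C`, `tr_g2C`, `pcEval_sigC`. -/
theorem eval_s0E (n1 n2 r m : ℕ) (P Q : PCode) (rows : List (List QCode))
    (z : Fin (0 + 2 * (n1 + n2 + r + 1 + m)) → ℝ) :
    pcEval (0 + 2 * (n1 + n2 + r + 1 + m)) (flat (s0E n1 n2 r m P Q rows)) z =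
      pcEval (n1 + 2 * n2 + r + 1 + m) (flat (s0C (n1 + 2 * n2) r m P Q rows))
        (fun i => pcEval (0 + 2 * (n1 + n2 + r + 1 + m)) (lT n1 n2 i) z) := by
  have hle : n1 + 2 * n2 + r + 1 ≤ n1 + 2 * n2 + r + 1 + m := Nat.le_add_right _ _
  rw [s0E, pcEval_flat_append, pcEval_map_exL, pcEval_map_cons_exL, pcEval_sbC, pcEval_sbC, pcEval_s0C,
    pcEval_sigC, tr_g1C (n1 + 2 * n2) r P Q rows _ hle, tr_g2C (n1 + 2 * n2) r P Q rows _ hle]
  rfl

end Pool.Agent.Lib.MP_bbe012_lc.CE
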