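import Mathlib
import Pool.Agent.Lib.MP_bbe012_lc.CE.Defs
import Pool.Agent.Lib.MP_bbe012_lc.CD.DiscA
import Pool.Agent.Lib.MP_bbe012_lc.CD.MixB
import Pool.Agent.Lib.MP_bbe012_lc.CV.TopB

/-!
# Integrals over products of intervals and discs as integrals over polydiscs
-/

namespace Pool.Agent.Lib.MP_bbe012_lc.CE

open MeasureTheory Set HC CV CD

/-- Tonelli's theorem: as `integral_pS` (CD/Prod.lean) with `lintegral_prod`; `Prod_symm`, and the indicator as in `Prod_ind`. -/
theorem lintegral_pS {a b : ℕ} {A : Set (Fin a → ℝ)} {B : Set (Fin b → ℝ)} (hA : MeasurableSet A)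
    (hB : MeasurableSet B) {G : (Fin (a + b) → ℝ) → ENNReal} (hG : Measurable G) :
    ∫⁻ z in pS A B, G z = ∫⁻ x in A, ∫⁻ y in B, G (Fin.append x y) := by
  have hpre : pS A B = (split a b) ⁻¹' (A ×ˢ B) := by
    ext z
    simp only [pS, Set.mem_ofPred_eq, Set.mem_preimage, split_apply, Set.mem_prod]
  have hm : Measurable fun p : (Fin a → ℝ) × (Fin b → ℝ) => G (Fin.append p.1 p.2) :=
    hG.comp (MixB_append a b)
  have h1 : ∫⁻ z in pS A B, G z =
      ∫⁻ p in A ×ˢ B, G (Fin.append p.1 p.2) := by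
    rw [hpre, ← (measurePreserving_split a b).setLIntegral_comp_preimage (hA.prod hB) hm]
    refine lintegral_congr fun u => ?_
    rw [split_apply, append_parts]
  rw [h1, Measure.volume_eq_prod, ← Measure.prod_restrict, lintegral_prod _ hm.aemeasurable]

/-- `volume_preserving_funUnique (Fin 1) ℝ`. -/
theorem lintegral_cube_one {g : ℝ → ENNReal} (hg : Measurable g) :
    ∫⁻ y in cube 1, g (y 0) = ∫⁻ t in Ioo (-1 : ℝ) 1, g t := by
  rw [← (volume_preserving_funUnique (Fin 1) ℝ).setLIntegral_comp_preimage measurableSet_Ioo hg]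
  have hset : (cube 1 : Set (Fin 1 → ℝ)) = (MeasurableEquiv.funUnique (Fin 1) ℝ) ⁻¹' (Ioo (-1 : ℝ) 1) := by
    ext u
    constructor
    · intro h
      exact h 0
    · intro h i
      rw [Subsingleton.elim i 0]
      exact h
  rw [hset]
  rfl

/-- An integral over the disc as an integral over the plane. -/
theorem Sub_prod {g : ℝ → ENNReal} (hg : Measurable g) :
    ∫⁻ w in disc, g (w 0 ^ 2 + w 1 ^ 2) =
      ∫⁻ w : ℝ × ℝ, (Iio (1 : ℝ)).indicator g (w.1 ^ 2 + w.2 ^ 2) := by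
  have hm : Measurable fun w : ℝ × ℝ => (Iio (1 : ℝ)).indicator g (w.1 ^ 2 + w.2 ^ 2) :=
    (hg.indicator measurableSet_Iio).comp
      ((measurable_fst.pow_const 2).add (measurable_snd.pow_const 2))
  rw [← lintegral_indicator measurableSet_disc,
    ← (volume_preserving_finTwoArrow ℝ).lintegral_comp hm]
  refine lintegral_congr fun w => ?_
  show disc.indicator (fun w => g (w 0 ^ 2 + w 1 ^ 2)) w =
    (Iio (1 : ℝ)).indicator g (w 0 ^ 2 + w 1 ^ 2)
  by_cases hw : w ∈ disc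
  · rw [indicator_of_mem hw, indicator_of_mem (show w 0 ^ 2 + w 1 ^ 2 ∈ Iio (1 : ℝ) from hw)]
  · rw [indicator_of_notMem hw, indicator_of_notMem (show w 0 ^ 2 + w 1 ^ 2 ∉ Iio (1 : ℝ) from hw)]

/-- Polar coordinates. -/
theorem Sub_polar {h : ℝ → ENNReal} (hh : Measurable h) :
    ∫⁻ w : ℝ × ℝ, h (w.1 ^ 2 + w.2 ^ 2) =
      ENNReal.ofReal (2 * Real.pi) * ∫⁻ r in Ioi (0 : ℝ), ENNReal.ofReal r * h (r ^ 2) := by
  rw [← lintegral_comp_polarCoord_symm (fun w : ℝ × ℝ => h (w.1 ^ 2 + w.2 ^ 2))]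
  have h1 : ∫⁻ p in polarCoord.target,
      ENNReal.ofReal p.1 • h ((polarCoord.symm p).1 ^ 2 + (polarCoord.symm p).2 ^ 2) =
      ∫⁻ p in Ioi (0 : ℝ) ×ˢ Ioo (-Real.pi) Real.pi, ENNReal.ofReal p.1 * h (p.1 ^ 2) := by
    refine setLIntegral_congr_fun (measurableSet_Ioi.prod measurableSet_Ioo) ?_
    intro p _
    show ENNReal.ofReal p.1 • h ((polarCoord.symm p).1 ^ 2 + (polarCoord.symm p).2 ^ 2) =
      ENNReal.ofReal p.1 * h (p.1 ^ 2)
    rw [polarCoord_symm_apply]
    have h2 : (p.1 * Real.cos p.2) ^ 2 + (p.1 * Real.sin p.2) ^ 2 = p.1 ^ 2 := by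
      have h3 := Real.cos_sq_add_sin_sq p.2
      calc (p.1 * Real.cos p.2) ^ 2 + (p.1 * Real.sin p.2) ^ 2 =
          p.1 ^ 2 * (Real.cos p.2 ^ 2 + Real.sin p.2 ^ 2) := by ring
        _ = p.1 ^ 2 := by rw [h3, mul_one]
    show ENNReal.ofReal p.1 • h ((p.1 * Real.cos p.2) ^ 2 + (p.1 * Real.sin p.2) ^ 2) =
      ENNReal.ofReal p.1 * h (p.1 ^ 2)
    rw [h2, smul_eq_mul]
  have hm : Measurable fun r : ℝ => ENNReal.ofReal r * h (r ^ 2) :=
    (measurable_id.ennreal_ofReal).mul (hh.comp (measurable_id.pow_const 2))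
  have hm2 : Measurable fun p : ℝ × ℝ => ENNReal.ofReal p.1 * h (p.1 ^ 2) :=
    hm.comp measurable_fst
  rw [h1, Measure.volume_eq_prod, ← Measure.prod_restrict, lintegral_prod _ hm2.aemeasurable]
  simp only [lintegral_const, Measure.restrict_apply MeasurableSet.univ, univ_inter, Real.volume_Ioo]
  rw [lintegral_mul_const _ hm, mul_comm]
  congr 2
  ring

/-- The substitution `t = 2 r^2 - 1`. -/
theorem Sub_subst (g : ℝ → ENNReal) :
    ∫⁻ t in Ioo (-1 : ℝ) 1, g t =
      4 * ∫⁻ r in Ioo (0 : ℝ) 1, ENNReal.ofReal r * g (2 * r ^ 2 - 1) := by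
  have him : (fun r : ℝ => 2 * r ^ 2 - 1) '' Ioo (0 : ℝ) 1 = Ioo (-1 : ℝ) 1 := by
    ext t
    constructor
    · rintro ⟨r, ⟨hr0, hr1⟩, rfl⟩
      constructor
      · show (-1 : ℝ) < 2 * r ^ 2 - 1
        nlinarith
      · show 2 * r ^ 2 - 1 < (1 : ℝ)
        nlinarith
    · rintro ⟨ht0, ht1⟩
      refine ⟨√((1 + t) / 2), ⟨Real.sqrt_pos.2 (by linarith), ?_⟩, ?_⟩
      · rw [Real.sqrt_lt' one_pos]
        linarith
      · show 2 * √((1 + t) / 2) ^ 2 - 1 = t
        rw [Real.sq_sqrt (by linarith)]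
        ring
  have hder : ∀ x ∈ Ioo (0 : ℝ) 1,
      HasDerivWithinAt (fun r : ℝ => 2 * r ^ 2 - 1) (4 * x) (Ioo (0 : ℝ) 1) x := by
    intro x _
    have h1 : HasDerivAt (fun r : ℝ => 2 * r ^ 2 - 1) (4 * x) x := by
      have h2 := ((hasDerivAt_pow 2 x).const_mul 2).sub_const (1 : ℝ)
      refine h2.congr_deriv ?_
      push_cast
      ring
    exact h1.hasDerivWithinAt
  have hinj : InjOn (fun r : ℝ => 2 * r ^ 2 - 1) (Ioo (0 : ℝ) 1) := by
    intro x hx y hy hxy
    have h1 : x ^ 2 = y ^ 2 := by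
      have h2 : 2 * x ^ 2 - 1 = 2 * y ^ 2 - 1 := hxy
      linarith
    exact (pow_left_inj₀ hx.1.le hy.1.le two_ne_zero).1 h1
  rw [← him, lintegral_image_eq_lintegral_abs_deriv_mul measurableSet_Ioo hder hinj,
    ← lintegral_const_mul' _ _ ENNReal.ofNat_ne_top]
  refine setLIntegral_congr_fun measurableSet_Ioo ?_
  intro r hr
  show ENNReal.ofReal |4 * r| * g (2 * r ^ 2 - 1) = 4 * (ENNReal.ofReal r * g (2 * r ^ 2 - 1))
  rw [abs_of_pos (mul_pos four_pos hr.1), ENNReal.ofReal_mul (by norm_num), ← mul_assoc]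
  congr 2
  simp

/-- Polar coordinates: for every measurable set `S` the volume of `{w ∈ disc | 2 |w|^2 - 1 ∈ S}` is `π / 2` times the length of
`S ∩ (-1, 1)` (`dAv_radial` in CD/DiscA.lean for the indicator of `S`, and the substitution `s = (1 + t) / 2`), so the
push-forward of the measure is `π / 2` times the Lebesgue measure of the interval; or `lintegral_comp_polarCoord_symm` directly. -/
theorem lintegral_disc_norm {g : ℝ → ENNReal} (hg : Measurable g) :
    ∫⁻ w in disc, g (2 * (w 0 ^ 2 + w 1 ^ 2) - 1) =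
      ENNReal.ofReal (Real.pi / 2) * ∫⁻ t in Ioo (-1 : ℝ) 1, g t := by
  have hg2 : Measurable fun s : ℝ => g (2 * s - 1) :=
    hg.comp ((measurable_const.mul measurable_id).sub measurable_const)
  rw [Sub_prod (g := fun s => g (2 * s - 1)) hg2, Sub_polar (hg2.indicator measurableSet_Iio),
    Sub_subst, ← mul_assoc]
  congr 1
  · rw [show (4 : ENNReal) = ENNReal.ofReal 4 by simp, ← ENNReal.ofReal_mul (by positivity)]
    congr 1
    ring
  · have h1 : ∀ r ∈ Ioi (0 : ℝ), ENNReal.ofReal r *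
        (Iio (1 : ℝ)).indicator (fun s => g (2 * s - 1)) (r ^ 2) =
        (Iio (1 : ℝ)).indicator (fun r => ENNReal.ofReal r * g (2 * r ^ 2 - 1)) r := by
      intro r hr
      have hr0 : 0 < r := hr
      by_cases h : r < 1
      · have h2 : r ^ 2 ∈ Iio (1 : ℝ) := by
          show r ^ 2 < 1
          nlinarith
        rw [indicator_of_mem h2, indicator_of_mem (show r ∈ Iio (1 : ℝ) from h)]
      · have h2 : r ^ 2 ∉ Iio (1 : ℝ) := by
          show ¬ r ^ 2 < 1
          rw [not_lt] at h ⊢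
          nlinarith
        rw [indicator_of_notMem h2, indicator_of_notMem (show r ∉ Iio (1 : ℝ) from h), mul_zero]
    rw [setLIntegral_congr_fun measurableSet_Ioi h1, setLIntegral_indicator measurableSet_Iio,
      Iio_inter_Ioi]

/-- Integrals over `A` are, up to the factor `C`, integrals over the polydisc with `N` discs with the values of
`L i` for the variables. -/
def TrC {a : ℕ} (A : Set (Fin a → ℝ)) (N : ℕ) (L : ℕ → PCode) (C : ENNReal) : Prop :=
  MeasurableSet A ∧ ∀ φ : (Fin a → ℝ) → ENNReal, Measurable φ →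
    ∫⁻ z in boxDisc 0 N, φ (fun i => pcEval (0 + 2 * N) (L i) z) = C * ∫⁻ x in A, φ x

variable {a N : ℕ} {A : Set (Fin a → ℝ)} {L : ℕ → PCode} {C : ENNReal}

/-- The general step. -/
theorem Sub_step {b : ℕ} {B : Set (Fin b → ℝ)} (hB : MeasurableSet B) {D : ENNReal}
    (hD : D ≠ ⊤) (s : (Fin 2 → ℝ) → (Fin b → ℝ))
    (h : TrC A N L C) (hL : ∀ i < a, Tr (0 + 2 * N) (L i))
    (hs : ∀ (x : Fin (0 + 2 * N) → ℝ) (w : Fin 2 → ℝ) (i : Fin b),
      pcEval (0 + 2 * N + 2) (L (a + i)) (Fin.append x w) = s w i)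
    (hφ : ∀ φ : (Fin b → ℝ) → ENNReal, Measurable φ →
      ∫⁻ w in disc, φ (s w) = D * ∫⁻ y in B, φ y) :
    TrC (pS A B) (N + 1) L (C * D) := by
  refine ⟨measurableSet_pS h.1 hB, fun φ hm => ?_⟩
  have hval : Measurable fun z : Fin (0 + 2 * N + 2) → ℝ =>
      φ (fun i : Fin (a + b) => pcEval (0 + 2 * N + 2) (L i) z) :=
    hm.comp (measurable_pi_lambda _ fun i => measurable_pcEval _ _)
  have h1 : ∫⁻ z in boxDisc 0 (N + 1), φ (fun i => pcEval (0 + 2 * (N + 1)) (L i) z) =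
      ∫⁻ z in (pS (boxDisc 0 N) disc : Set (Fin (0 + 2 * N + 2) → ℝ)),
        φ (fun i : Fin (a + b) => pcEval (0 + 2 * N + 2) (L i) z) := by
    rw [← boxDisc_succ]
    rfl
  have hpt : ∀ (x : Fin (0 + 2 * N) → ℝ) (w : Fin 2 → ℝ),
      (fun i : Fin (a + b) => pcEval (0 + 2 * N + 2) (L i) (Fin.append x w)) =
        Fin.append (fun i : Fin a => pcEval (0 + 2 * N) (L i) x) (s w) := by
    intro x w
    funext i
    refine Fin.addCases (fun k => ?_) (fun k => ?_) i
    · rw [Fin.append_left, Fin.val_castAdd, hL k k.isLt _ (Nat.le_add_right _ 2)]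
      congr 1
      funext j
      exact Fin.append_left x w j
    · rw [Fin.append_right, Fin.val_natAdd]
      exact hs x w k
  have hma : Measurable fun p : (Fin a → ℝ) × (Fin b → ℝ) => φ (Fin.append p.1 p.2) :=
    hm.comp (MixB_append a b)
  have hin : Measurable fun y : Fin a → ℝ => ∫⁻ t in B, φ (Fin.append y t) :=
    Measurable.lintegral_prod_right' hma
  have h2 : ∀ x : Fin (0 + 2 * N) → ℝ,
      ∫⁻ w in disc, φ (fun i : Fin (a + b) => pcEval (0 + 2 * N + 2) (L i) (Fin.append x w)) =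
      D * ∫⁻ t in B, φ (Fin.append (fun i : Fin a => pcEval (0 + 2 * N) (L i) x) t) := by
    intro x
    simp only [hpt]
    exact hφ (fun t => φ (Fin.append (fun i : Fin a => pcEval (0 + 2 * N) (L i) x) t))
      (hma.comp (measurable_const.prodMk measurable_id))
  rw [h1, lintegral_pS (measurableSet_boxDisc 0 N) measurableSet_disc hval,
    lintegral_pS h.1 hB hm]
  simp only [h2]
  rw [lintegral_const_mul' _ _ hD]
  have h3 := h.2 (fun y => ∫⁻ t in B, φ (Fin.append y t)) hin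
  rw [h3]
  ring

/-- `boxDisc_succ` (CD/Dom.lean), `lintegral_pS` for both sides, the point is
`Fin.append (fun i => pcEval (0 + 2 * N) (L i) x) (fun _ => 2 |w|^2 - 1)` at `z = Fin.append x w`; `lintegral_disc_norm` for
every fixed `x`, Tonelli once more to have the integral over the interval outside; the hypothesis `h`. -/
theorem TrC.int (h : TrC A N L C) (hL : ∀ i < a, Tr (0 + 2 * N) (L i)) (ha : L a = dq (2 * N)) :
    TrC (pS A (cube 1)) (N + 1) L (C * ENNReal.ofReal (Real.pi / 2)) := by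
  refine Sub_step (MixB_mcube 1) ENNReal.ofReal_ne_top
    (fun w _ => 2 * (w 0 ^ 2 + w 1 ^ 2) - 1) h hL ?_ ?_
  · intro x w i
    have hi : (i : ℕ) = 0 := by
      have := i.isLt
      omega
    have e0 : (⟨2 * N, by omega⟩ : Fin (0 + 2 * N + 2)) = Fin.natAdd (0 + 2 * N) 0 := by
      apply Fin.ext
      simp
    have e1 : (⟨2 * N + 1, by omega⟩ : Fin (0 + 2 * N + 2)) = Fin.natAdd (0 + 2 * N) 1 := by
      apply Fin.ext
      simp
    rw [hi, add_zero, ha]
    unfold dq nsq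
    rw [pcEval_append, pcEval_mul, pcEval_append, pcEval_mul, pcEval_mul, pcEval_neg, pcEval_nat,
      pcEval_nat, pcEval_var (by omega : 2 * N < 0 + 2 * N + 2),
      pcEval_var (by omega : 2 * N + 1 < 0 + 2 * N + 2), e0, e1, Fin.append_right,
      Fin.append_right]
    push_cast
    ring
  · intro φ hφ
    have hm : Measurable fun t : ℝ => φ (fun _ => t) :=
      hφ.comp (measurable_pi_lambda _ fun _ => measurable_id)
    rw [lintegral_disc_norm (g := fun t => φ (fun _ => t)) hm, ← lintegral_cube_one hm]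
    congr 1
    refine lintegral_congr fun y => ?_
    congr 1
    funext i
    rw [Subsingleton.elim i 0]

/-- Simpler: the last disc is not changed. -/
theorem TrC.dsc (h : TrC A N L C) (hL : ∀ i < a, Tr (0 + 2 * N) (L i)) (h0 : L a = pcVar (2 * N))
    (h1 : L (a + 1) = pcVar (2 * N + 1)) : TrC (pS A disc) (N + 1) L C := by
  have hres := Sub_step (b := 2) (B := disc) measurableSet_disc (D := 1) ENNReal.one_ne_top
    (fun w => w) h hL ?_ ?_
  · rwa [mul_one] at hres
  · intro x w i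
    have e0 : (⟨2 * N, by omega⟩ : Fin (0 + 2 * N + 2)) = Fin.natAdd (0 + 2 * N) 0 := by
      apply Fin.ext
      simp
    have e1 : (⟨2 * N + 1, by omega⟩ : Fin (0 + 2 * N + 2)) = Fin.natAdd (0 + 2 * N) 1 := by
      apply Fin.ext
      simp
    fin_cases i
    · show pcEval (0 + 2 * N + 2) (L a) (Fin.append x w) = w 0
      rw [h0, pcEval_var (by omega : 2 * N < 0 + 2 * N + 2), e0, Fin.append_right]
    · show pcEval (0 + 2 * N + 2) (L (a + 1)) (Fin.append x w) = w 1
      rw [h1, pcEval_var (by omega : 2 * N + 1 < 0 + 2 * N + 2), e1, Fin.append_right]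
  · intro φ _
    rw [one_mul]

end Pool.Agent.Lib.MP_bbe012_lc.CE
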