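import Mathlib
import Pool.Agent.Lib.MP_bbe012_lc.CE.Sub

/-!
# The integrals which occur in the initial state
-/

namespace Pool.Agent.Lib.MP_bbe012_lc.CE

open MeasureTheory Set HC CV CD

/-- `Tr.append`, `Tr.mul`, `Tr.nat`, `Tr.neg` (CV/EvalS.lean), `TopB_tr_var` (CV/TopB.lean). -/
theorem tr_dq {M i : ℕ} (h : i + 1 < M) : Tr M (dq i) := by
  have h0 : Tr M (pcVar i) := TopB_tr_var (by omega)
  have h1 : Tr M (pcVar (i + 1)) := TopB_tr_var h
  unfold dq nsq
  exact ((Tr.nat _ _).mul ((h0.mul h0).append (h1.mul h1))).append (Tr.nat _ _).neg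

theorem tr_lT {n1 n2 k i : ℕ} (h : i < n1 + 2 * n2 + k) : Tr (0 + 2 * (n1 + n2 + k)) (lT n1 n2 i) := by
  unfold lT
  split_ifs with h1 h2
  · exact tr_dq (by omega)
  · exact TopB_tr_var (by omega)
  · exact tr_dq (by omega)

/-- The value of `dq`. -/
theorem pcEval_dq {M i : ℕ} (h : i + 1 < M) (z : Fin M → ℝ) :
    pcEval M (dq i) z = 2 * (z ⟨i, by omega⟩ ^ 2 + z ⟨i + 1, h⟩ ^ 2) - 1 := by
  unfold dq nsq
  rw [pcEval_append, pcEval_mul, pcEval_nat, pcEval_append, pcEval_mul, pcEval_mul, pcEval_neg, pcEval_nat,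
    pcEval_var (by omega : i < M), pcEval_var h]
  push_cast
  ring

variable {a N : ℕ} {A : Set (Fin a → ℝ)} {L : ℕ → PCode} {C : ENNReal}

private theorem SubB_pS_zero (A : Set (Fin a → ℝ)) : (pS A (cube 0) : Set (Fin (a + 0) → ℝ)) = A := by
  ext z
  constructor
  · rintro ⟨h1, -⟩
    exact h1
  · intro h
    exact ⟨h, fun i => i.elim0⟩

private theorem SubB_pS_succ (A : Set (Fin a → ℝ)) (k : ℕ) :
    (pS (a := a) (b := k + 1) A (cube (k + 1)) : Set (Fin (a + k + 1) → ℝ)) = pS (pS A (cube k)) (cube 1) := by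
  ext z
  constructor
  · rintro ⟨h1, h2⟩
    refine ⟨⟨h1, fun i => h2 i.castSucc⟩, fun i => ?_⟩
    obtain rfl : i = 0 := Subsingleton.elim _ _
    exact h2 (Fin.last k)
  · rintro ⟨⟨h1, h2⟩, h3⟩
    refine ⟨h1, fun i => ?_⟩
    rcases i.eq_castSucc_or_eq_last with ⟨i', rfl⟩ | rfl
    · exact h2 i'
    · exact h3 0

/-- Induction on `k` with `TrC.int`; `pS A (cube (k + 1)) = pS (pS A (cube k)) (cube 1)` (the types are definitionally equal); `tr_dq`,
`TopB_tr_mono`. -/
theorem TrC.ints (h : TrC A N L C) (hL : ∀ i < a, Tr (0 + 2 * N) (L i)) (k : ℕ)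
    (hk : ∀ i < k, L (a + i) = dq (2 * (N + i))) :
    TrC (pS A (cube k)) (N + k) L (C * ENNReal.ofReal (Real.pi / 2) ^ k) := by
  induction k with
  | zero =>
    rw [pow_zero, mul_one]
    have e : (pS A (cube 0) : Set (Fin (a + 0) → ℝ)) = A := SubB_pS_zero A
    rw [e]
    exact h
  | succ k ih =>
    have h1 := ih fun i hi => hk i (by omega)
    have h2 : TrC (pS (pS A (cube k)) (cube 1)) (N + k + 1) L
        (C * ENNReal.ofReal (Real.pi / 2) ^ k * ENNReal.ofReal (Real.pi / 2)) := by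
      refine h1.int (fun i hi => ?_) (hk k (Nat.lt_succ_self k))
      by_cases hia : i < a
      · exact TopB_tr_mono (by omega) (hL i hia)
      · obtain ⟨j, rfl⟩ := Nat.exists_eq_add_of_le (not_lt.1 hia)
        rw [hk j (by omega)]
        exact tr_dq (by omega)
    have e : (pS (a := a) (b := k + 1) A (cube (k + 1)) : Set (Fin (a + k + 1) → ℝ)) = pS (pS A (cube k)) (cube 1) :=
      SubB_pS_succ A k
    show TrC (a := a + k + 1) (pS (a := a) (b := k + 1) A (cube (k + 1)) : Set (Fin (a + k + 1) → ℝ)) (N + k + 1) L _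
    rw [e, pow_succ, ← mul_assoc]
    exact h2

/-- Induction on `n` with `TrC.int`, `cube_pS` (CD/Prod.lean). For `n = 0` both integrals are over the one point of `Fin 0 → ℝ`. -/
theorem trC_cube (n : ℕ) {L : ℕ → PCode} (hL : ∀ i < n, L i = dq (2 * i)) :
    TrC (cube n) n L (ENNReal.ofReal (Real.pi / 2) ^ n) := by
  induction n with
  | zero =>
    refine ⟨?_, fun φ _ => ?_⟩
    · rw [← boxDisc_zero 0]
      exact measurableSet_boxDisc 0 0
    · rw [pow_zero, one_mul, boxDisc_zero]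
      have e : (fun z : Fin (0 + 2 * 0) → ℝ => φ fun i : Fin 0 => pcEval (0 + 2 * 0) (L i) z) = φ := by
        funext z
        exact congrArg φ (Subsingleton.elim _ _)
      show ∫⁻ z in cube 0, (fun z : Fin (0 + 2 * 0) → ℝ => φ fun i : Fin 0 => pcEval (0 + 2 * 0) (L i) z) z = _
      rw [e]
  | succ n ih =>
    rw [cube_pS n 1, pow_succ]
    refine (ih fun i hi => hL i (by omega)).int (fun i hi => ?_) (hL n (Nat.lt_succ_self n))
    rw [hL i (by omega)]
    exact tr_dq (by omega)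

/-- Induction on `n2` with `TrC.dsc`; `boxDisc_zero`, `boxDisc_succ` (CD/Dom.lean). -/
theorem trC_box (n1 n2 : ℕ) {L : ℕ → PCode} (h1 : ∀ i < n1, L i = dq (2 * i))
    (h2 : ∀ j < 2 * n2, L (n1 + j) = pcVar (2 * n1 + j)) :
    TrC (boxDisc n1 n2) (n1 + n2) L (ENNReal.ofReal (Real.pi / 2) ^ n1) := by
  induction n2 with
  | zero =>
    rw [boxDisc_zero]
    exact trC_cube n1 h1
  | succ n2 ih =>
    have h3 := ih fun j hj => h2 j (by omega)
    have h4 : TrC (pS (boxDisc n1 n2) disc) (n1 + n2 + 1) L (ENNReal.ofReal (Real.pi / 2) ^ n1) := by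
      refine h3.dsc (fun i hi => ?_) ?_ ?_
      · by_cases hi1 : i < n1
        · rw [h1 i hi1]
          exact tr_dq (by omega)
        · obtain ⟨j, rfl⟩ := Nat.exists_eq_add_of_le (not_lt.1 hi1)
          rw [h2 j (by omega)]
          exact TopB_tr_var (by omega)
      · rw [h2 (2 * n2) (by omega)]
        congr 1
        ring
      · rw [add_assoc, h2 (2 * n2 + 1) (by omega)]
        congr 1
        ring
    show TrC (a := n1 + 2 * n2 + 2) (boxDisc n1 (n2 + 1) : Set (Fin (n1 + 2 * n2 + 2) → ℝ)) (n1 + n2 + 1) L _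
    rw [boxDisc_succ]
    exact h4

private theorem SubB_lT1 {n1 n2 i : ℕ} (h : i < n1) : lT n1 n2 i = dq (2 * i) := by
  unfold lT
  rw [if_pos h]

private theorem SubB_lT2 {n1 n2 j : ℕ} (h : j < 2 * n2) : lT n1 n2 (n1 + j) = pcVar (2 * n1 + j) := by
  unfold lT
  rw [if_neg (by omega), if_pos (by omega)]
  congr 1
  ring

private theorem SubB_lT3 {n1 n2 i : ℕ} : lT n1 n2 (n1 + 2 * n2 + i) = dq (2 * (n1 + n2 + i)) := by
  unfold lT
  rw [if_neg (by omega), if_neg (by omega)]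
  congr 1
  omega

/-- `trC_box`, then `TrC.ints` three times (with `k = r`, `k = 1`, `k = m`); `tr_lT`. -/
theorem trC_main (n1 n2 r m : ℕ) :
    TrC (pS (pS (pS (boxDisc n1 n2) (cube r)) (cube 1)) (cube m)) (n1 + n2 + r + 1 + m) (lT n1 n2)
      (ENNReal.ofReal (Real.pi / 2) ^ (n1 + (r + 1 + m))) := by
  have h1 := trC_box n1 n2 (L := lT n1 n2) (fun i hi => SubB_lT1 hi) fun j hj => SubB_lT2 hj
  have h2 := h1.ints (fun i hi => tr_lT (k := 0) (by omega)) r fun i _ => SubB_lT3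
  have h3 := h2.ints (fun i hi => tr_lT (k := r) (by omega)) 1 fun i _ => by
    rw [add_assoc (n1 + 2 * n2), SubB_lT3]
    congr 1
    ring
  have h4 := h3.ints (fun i hi => tr_lT (k := r + 1) (by omega)) m fun i _ => by
    rw [add_assoc (n1 + 2 * n2), add_assoc (n1 + 2 * n2), SubB_lT3]
    congr 1
    ring
  have e : ENNReal.ofReal (Real.pi / 2) ^ (n1 + (r + 1 + m)) = ENNReal.ofReal (Real.pi / 2) ^ n1 *
      ENNReal.ofReal (Real.pi / 2) ^ r * ENNReal.ofReal (Real.pi / 2) ^ 1 * ENNReal.ofReal (Real.pi / 2) ^ m := by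
    rw [← pow_add, ← pow_add, ← pow_add]
    congr 1
    ring
  rw [e]
  exact h4

end Pool.Agent.Lib.MP_bbe012_lc.CE
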