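import Mathlib
import Pool.Agent.Lib.MP_bbe012_lc.CE.SubB
import Pool.Agent.Lib.MP_bbe012_lc.CE.EvalE
import Pool.Agent.Lib.MP_bbe012_lc.CD.Init

/-!
# The initial state
-/

namespace Pool.Agent.Lib.MP_bbe012_lc.CE

open MeasureTheory Set HC CV CD

/-- Bochner integrals of a measurable nonnegative function. -/
private theorem InitE_int {a N : ℕ} {A : Set (Fin a → ℝ)} {L : ℕ → PCode} {C : ENNReal}
    (h : TrC A N L C) {f : (Fin a → ℝ) → ℝ} (hf : Measurable f) (hf0 : ∀ x, 0 ≤ f x) :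
    ∫ z in boxDisc 0 N, f (fun i => pcEval (0 + 2 * N) (L i) z) = C.toReal * ∫ x in A, f x := by
  have hL : Measurable fun z : Fin (0 + 2 * N) → ℝ => fun i : Fin a => pcEval (0 + 2 * N) (L i) z :=
    measurable_pi_lambda _ fun i => measurable_pcEval _ _
  rw [integral_eq_lintegral_of_nonneg_ae (Filter.Eventually.of_forall fun z => hf0 _)
      (hf.comp hL).aestronglyMeasurable,
    integral_eq_lintegral_of_nonneg_ae (Filter.Eventually.of_forall fun z => hf0 _)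
      hf.aestronglyMeasurable, ← ENNReal.toReal_mul]
  exact congrArg ENNReal.toReal (h.2 (fun x => ENNReal.ofReal (f x)) hf.ennreal_ofReal)

/-- Compare `AA_swS` in CD/Init.lean. The integrand is nonnegative and measurable, so the Bochner integrals are `toReal` of the lower integrals
(`integral_eq_lintegral_of_nonneg_ae`); `trC_main`, `eval_s0E`; the sets with `U` and with `boxDisc n1 n2` differ by a null set
(as in `AA_swS`); `2 ^ 0 = 1` and `(π / 2)^(n1 + (r + 1 + m)) / π^(n1 + n2 + r + 1 + m) = 1 / (2^(n1 + (r + 1 + m)) π^n2)`. -/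
theorem AA_s0E (n1 n2 r m k : ℕ) (P Q : PCode) (rows : List (List QCode))
    {U : Set (Fin (n1 + 2 * n2) → ℝ)} (hm : MeasurableSet U) (hU : U ⊆ boxDisc n1 n2)
    (h0 : volume (boxDisc n1 n2 \ U) = 0) :
    AA 0 (n1 + n2 + r + 1 + m) (flat (s0E n1 n2 r m P Q rows)) k =
      (∫ w in pS (pS (pS U (cube r)) (cube 1)) (cube m),
        pp k (pcEval (n1 + 2 * n2 + r + 1 + m) (flat (s0C (n1 + 2 * n2) r m P Q rows)) w)) /
          (2 ^ (n1 + (r + 1 + m)) * Real.pi ^ n2) := by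
  have hb := measurableSet_boxDisc n1 n2
  have hb1 := measurableSet_pS hb (Sum_cube_meas r)
  have hb2 := measurableSet_pS hb1 (Sum_cube_meas 1)
  have hu1 := measurableSet_pS hm (Sum_cube_meas r)
  have hu2 := measurableSet_pS hu1 (Sum_cube_meas 1)
  have h1 := volume_pS_diff hb hm (Sum_cube_meas r) h0
  have h2 := volume_pS_diff hb1 hu1 (Sum_cube_meas 1) h1
  have h3 := volume_pS_diff hb2 hu2 (Sum_cube_meas m) h2
  have hsub : pS (pS (pS U (cube r)) (cube 1)) (cube m) ⊆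
      pS (pS (pS (boxDisc n1 n2) (cube r)) (cube 1)) (cube m) :=
    pS_mono (pS_mono (pS_mono hU subset_rfl) subset_rfl) subset_rfl
  have hae : (pS (pS (pS (boxDisc n1 n2) (cube r)) (cube 1)) (cube m) : Set _) =ᵐ[volume]
      (pS (pS (pS U (cube r)) (cube 1)) (cube m) : Set _) :=
    (ae_eq_set.2 ⟨h3, by rw [sdiff_eq_empty.2 hsub]; exact measure_empty⟩)
  have hmain := InitE_int (trC_main n1 n2 r m)
    (f := fun w => pp k (pcEval (n1 + 2 * n2 + r + 1 + m) (flat (s0C (n1 + 2 * n2) r m P Q rows)) w))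
    ((measurable_pp k).comp (measurable_pcEval _ _)) (fun x => pp_nonneg _ _)
  rw [setIntegral_congr_set hae] at hmain
  unfold AA Av
  simp only [eval_s0E n1 n2 r m P Q rows]
  rw [hmain, ENNReal.toReal_pow, ENNReal.toReal_ofReal (by positivity)]
  have hpi : Real.pi ≠ 0 := Real.pi_pos.ne'
  generalize (∫ w in pS (pS (pS U (cube r)) (cube 1)) (cube m),
    pp k (pcEval (n1 + 2 * n2 + r + 1 + m) (flat (s0C (n1 + 2 * n2) r m P Q rows)) w)) = I
  rw [show n1 + n2 + r + 1 + m = (n1 + (r + 1 + m)) + n2 by ring,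
    pow_add Real.pi (n1 + (r + 1 + m)) n2, div_pow, pow_zero, one_mul]
  have h4 : Real.pi ^ (n1 + (r + 1 + m)) ≠ 0 := pow_ne_zero _ hpi
  have h5 : Real.pi ^ n2 ≠ 0 := pow_ne_zero _ hpi
  have h6 : (2 : ℝ) ^ (n1 + (r + 1 + m)) ≠ 0 := pow_ne_zero _ two_ne_zero
  generalize Real.pi ^ (n1 + (r + 1 + m)) = a at *
  generalize Real.pi ^ n2 = b at *
  generalize (2 : ℝ) ^ (n1 + (r + 1 + m)) = c at *
  field_simp

/-- As `st0D_spec` in CD/Init.lean with `AA_s0E` instead of `AA_swS`. -/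
theorem st0E_spec {n1 n2 : ℕ} {P Q : PCode} {c : CC} (hc : dCheckE n1 n2 P Q c)
    {U : Set (Fin (n1 + 2 * n2) → ℝ)} (hU : U ⊆ boxDisc n1 n2) (h0 : volume (boxDisc n1 n2 \ U) = 0)
    (H : Region (pcPoly (n1 + 2 * n2) Q) U)
    (hint : IntegrableOn (fun x => pcEval (n1 + 2 * n2) P x / pcEval (n1 + 2 * n2) Q x) U) :
    CC0 (st0E n1 n2 P Q c).2 ∧ ∃ c0 : ℚ, 0 < c0 ∧
      AA 0 (nDE n1 n2 c) (flat (st0E n1 n2 P Q c).1.2) (2 * c.1.1.2) - cval (st0E n1 n2 P Q c).2 =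
        c0 * ((∫ x in U, pcEval (n1 + 2 * n2) P x / pcEval (n1 + 2 * n2) Q x) / Real.pi ^ n2) := by
  obtain ⟨⟨⟨r, κ⟩, K0⟩, ⟨A0, rows⟩, gs⟩ := c
  have hm : MeasurableSet U := H.isOpen.measurableSet
  have hhc : hcCheck (n1 + 2 * n2) P Q
      (((r, nN r κ), K0), (A0, wC (n1 + 2 * n2) P Q rows), gs) := hc.1
  obtain ⟨hpos, hI⟩ := initU hhc (hU.trans (boxDisc_sub_cube n1 n2)) H hint
  refine ⟨CC0_q0D _ _ _ _ _ _ _, cval (c0C (2 * κ) (t0C (n1 + 2 * n2) r P Q rows)) /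
    2 ^ (n1 + (r + 1 + 2 * κ)), by positivity, ?_⟩
  change AA 0 (n1 + n2 + r + 1 + 2 * κ) (flat (s0E n1 n2 r (2 * κ) P Q rows)) (2 * κ) -
      (cval (q0D n1 n2 r (2 * κ) P Q rows) : ℝ) = _
  rw [AA_s0E n1 n2 r (2 * κ) (2 * κ) P Q rows hm hU h0, hI,
    cval_q0D n1 n2 r (2 * κ) P Q rows hm hU h0]
  have hpi : (Real.pi ^ n2 : ℝ) ≠ 0 := (pow_pos Real.pi_pos _).ne'
  push_cast
  rw [show n1 + (r + 1 + 2 * κ) = n1 + (r + (2 * κ + 1)) by ring, pow_add, pow_add, one_div_pow]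
  have h2a : (2 : ℝ) ^ n1 ≠ 0 := by positivity
  have h2b : (2 : ℝ) ^ r ≠ 0 := by positivity
  have h2c : (2 : ℝ) ^ (2 * κ + 1) ≠ 0 := by positivity
  generalize (2 : ℝ) ^ (2 * κ + 1) = w3 at *
  generalize (2 : ℝ) ^ r = w2 at *
  generalize (2 : ℝ) ^ n1 = w1 at *
  field_simp
  ring

end Pool.Agent.Lib.MP_bbe012_lc.CE
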