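import Mathlib
import Pool.Agent.Lib.MP_bbe012_lc.CE.Defs
import Pool.Agent.Lib.MP_bbe012_lc.CD.CertD
import Pool.Agent.Lib.MP_bbe012_lc.CD.PrimE

/-!
# The final polynomial and the search are computable
-/

namespace Pool.Agent.Lib.MP_bbe012_lc.CE

open Primrec HC CV CD

variable {α : Type} [Primcodable α]

private theorem PrimF_nsq {i : α → ℕ} (hi : Primrec i) : Primrec fun a => nsq (i a) :=
  pr_append (pr_mul (pr_var hi) (pr_var hi))
    (pr_mul (pr_var (succ.comp hi)) (pr_var (succ.comp hi)))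

/-- `pr_append`, `pr_mul`, `pr_nat`, `pr_neg`, `pr_var` (the private `PrimD_nsq` in CD/PrimD.lean). -/
theorem pr_dq {i : α → ℕ} (hi : Primrec i) : Primrec fun a => dq (i a) :=
  pr_append (pr_mul (pr_nat 2) (PrimF_nsq hi)) (pr_neg (pr_nat 1))

theorem pr_lT {n1 n2 i : α → ℕ} (h1 : Primrec n1) (h2 : Primrec n2) (hi : Primrec i) :
    Primrec fun a => lT (n1 a) (n2 a) (i a) := by
  have hc1 : PrimrecPred fun a => i a < n1 a := nat_lt.comp hi h1
  have hc2 : PrimrecPred fun a => i a < n1 a + 2 * n2 a :=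
    nat_lt.comp hi (nat_add.comp h1 (nat_mul.comp (const 2) h2))
  exact Primrec.ite hc1 (pr_dq (nat_mul.comp (const 2) hi))
    (Primrec.ite hc2 (pr_var (nat_add.comp hi h1)) (pr_dq (nat_mul.comp (const 2) (nat_sub.comp hi h2))))

/-- `list_flatMap`, `pr_mul`, `pr_const1`, `pr_prodRange`, `pr_pow` (as `pr_pcAv` in CD/PrimD.lean). -/
theorem pr_sbT {m n1 n2 : α → ℕ} {p : α → PCode} (hm : Primrec m) (h1 : Primrec n1)
    (h2 : Primrec n2) (hp : Primrec p) :
    Primrec fun a => sbC (m a) (lT (n1 a) (n2 a)) (p a) := by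
  have h3 : Primrec₂ fun (z : α × (QCode × List ℕ)) (i : ℕ) =>
      pcPow (lT (n1 z.1) (n2 z.1) i) (z.2.2.getD i 0) :=
    (pr_pow (pr_lT (h1.comp (fst.comp fst)) (h2.comp (fst.comp fst)) snd)
      ((list_getD 0).comp (snd.comp (snd.comp fst)) snd)).to₂
  have h4 : Primrec fun z : α × (QCode × List ℕ) => pcProdRange (m z.1) fun i =>
      pcPow (lT (n1 z.1) (n2 z.1) i) (z.2.2.getD i 0) :=
    pr_prodRange (g := fun (z : α × (QCode × List ℕ)) i =>
      pcPow (lT (n1 z.1) (n2 z.1) i) (z.2.2.getD i 0)) (hm.comp fst) h3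
  have h5 : Primrec fun z : α × (QCode × List ℕ) => ([(z.2.1, [])] : PCode) :=
    pr_const1 (fst.comp snd)
  exact list_flatMap hp (pr_mul h5 h4).to₂

theorem pr_sigC {N m T : α → ℕ} (hN : Primrec N) (hm : Primrec m) (hT : Primrec T) :
    Primrec fun a => sigC (N a) (m a) (T a) := by
  have h : Primrec₂ fun (a : α) (i : ℕ) => nsq (2 * (N a + i)) :=
    (PrimF_nsq (nat_mul.comp (const 2) (nat_add.comp (hN.comp fst) snd))).to₂
  exact pr_mul (pr_natv (nat_mul.comp (const 2) hT))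
    (pr_sumRange (g := fun a i => nsq (2 * (N a + i))) hm h)

private theorem PrimF_g1C {n r : α → ℕ} {P Q : α → PCode} {rows : α → List (List QCode)}
    (hn : Primrec n) (hr : Primrec r) (hP : Primrec P) (hQ : Primrec Q) (hrows : Primrec rows) :
    Primrec fun a => g1C (n a) (r a) (P a) (Q a) (rows a) :=
  pr_append (pr_mul (pr_pow (pr_trunc hn hQ) (succ.comp hr)) (pr_a2C hn hr hP hQ hrows))
    (pr_neg (pr_mul (pr_dCode hn hr hQ) (pr_mul (pr_natv (pr_t0C hn hr hP hQ hrows))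
      (pr_append (pr_nat 1) (pr_var (nat_add.comp hn hr))))))

private theorem PrimF_g2C {n r : α → ℕ} {P Q : α → PCode} {rows : α → List (List QCode)}
    (hn : Primrec n) (hr : Primrec r) (hP : Primrec P) (hQ : Primrec Q) (hrows : Primrec rows) :
    Primrec fun a => g2C (n a) (r a) (P a) (Q a) (rows a) :=
  pr_neg (pr_mul (pr_a2C hn hr hP hQ hrows) (pr_a2C hn hr hP hQ hrows))

/-- As `pr_s0C` in CV/PrimB.lean. -/
theorem pr_s0E {n1 n2 r m : α → ℕ} {P Q : α → PCode} {rows : α → List (List QCode)}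
    (h1 : Primrec n1) (h2 : Primrec n2) (hr : Primrec r) (hm : Primrec m) (hP : Primrec P)
    (hQ : Primrec Q) (hrows : Primrec rows) :
    Primrec fun a => s0E (n1 a) (n2 a) (r a) (m a) (P a) (Q a) (rows a) := by
  have hn : Primrec fun a => n1 a + 2 * n2 a := nat_add.comp h1 (nat_mul.comp (const 2) h2)
  have hM : Primrec fun a => n1 a + 2 * n2 a + r a + 1 := succ.comp (nat_add.comp hn hr)
  have h3 : Primrec fun a => (sbC (n1 a + 2 * n2 a + r a + 1) (lT (n1 a) (n2 a))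
      (g1C (n1 a + 2 * n2 a) (r a) (P a) (Q a) (rows a))).map exL :=
    list_map (pr_sbT hM h1 h2 (PrimF_g1C hn hr hP hQ hrows)) (primrec_exL.comp snd).to₂
  have hl : Primrec fun a => sigC (n1 a + n2 a + r a + 1) (m a)
      (t0C (n1 a + 2 * n2 a) (r a) (P a) (Q a) (rows a)) :=
    pr_sigC (succ.comp (nat_add.comp (nat_add.comp h1 h2) hr)) hm (pr_t0C hn hr hP hQ hrows)
  have h4 : Primrec₂ fun (a : α) (t : QCode × List ℕ) => sigC (n1 a + n2 a + r a + 1) (m a)
      (t0C (n1 a + 2 * n2 a) (r a) (P a) (Q a) (rows a)) :: exL t :=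
    list_cons.comp (hl.comp fst) (primrec_exL.comp snd)
  have h5 : Primrec fun a => (sbC (n1 a + 2 * n2 a + r a + 1) (lT (n1 a) (n2 a))
      (g2C (n1 a + 2 * n2 a) (r a) (P a) (Q a) (rows a))).map fun t =>
        sigC (n1 a + n2 a + r a + 1) (m a)
          (t0C (n1 a + 2 * n2 a) (r a) (P a) (Q a) (rows a)) :: exL t :=
    list_map (pr_sbT hM h1 h2 (PrimF_g2C hn hr hP hQ hrows)) h4
  exact list_append.comp h3 h5

private theorem PrimF_nDE : Primrec fun x : (ℕ × PCode × PCode) × CC => nDE x.1.1 0 x.2 :=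
  nat_add.comp (succ.comp (nat_add.comp (nat_add.comp CertD_n (const 0)) CertD_r)) CertD_two

private theorem PrimF_s0 : Primrec fun x : (ℕ × PCode × PCode) × CC =>
    s0E x.1.1 0 x.2.1.1.1 (2 * x.2.1.1.2) x.1.2.1 x.1.2.2 x.2.2.1.2 :=
  pr_s0E CertD_n (const 0) CertD_r CertD_two CertD_P CertD_Q CertD_rows

private theorem PrimF_st0 : Primrec fun x : (ℕ × PCode × PCode) × CC =>
    st0E x.1.1 0 x.1.2.1 x.1.2.2 x.2 :=
  pair (pair PrimF_nDE PrimF_s0)
    (PrimE_q0D CertD_n (const 0) CertD_r CertD_two CertD_P CertD_Q CertD_rows)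

private theorem PrimF_stF : Primrec fun x : (ℕ × PCode × PCode) × CC =>
    stFE x.1.1 0 x.1.2.1 x.1.2.2 x.2 :=
  pr_runD (const 0) CertD_kap PrimF_st0 (nat_sub.comp CertD_kap (const 2))

private theorem PrimF_hF : Primrec fun x : (ℕ × PCode × PCode) × CC =>
    hFE x.1.1 0 x.1.2.1 x.1.2.2 x.2 :=
  pr_flat (pr_trS (nat_add.comp (const 0) (nat_mul.comp (const 2) (fst.comp (fst.comp PrimF_stF))))
    (snd.comp (fst.comp PrimF_stF)))

/-- As `primrec_coinR` in CD/PrimE.lean. -/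
theorem primrec_coinRE : Primrec₂ coinRE :=
  pair (pair (const 0) (nat_add.comp (fst.comp (fst.comp PrimF_stF)) (const 4)))
    (pr_gadC (const 0) (fst.comp (fst.comp PrimF_stF)) PrimF_hF (snd.comp PrimF_stF))

private theorem PrimF_n : Primrec fun x : (ℕ × PCode × PCode) × CC => x.1.1 + 2 * 0 :=
  nat_add.comp CertD_n (const (2 * 0))

private theorem PrimF_toHC : Primrec fun x : (ℕ × PCode × PCode) × CC =>
    toHC (x.1.1 + 2 * 0) x.1.2.1 x.1.2.2 x.2 :=
  pair (pair (pair CertD_r CertD_nN) CertD_K)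
    (pair (pair CertD_A (pr_wC PrimF_n CertD_P CertD_Q CertD_rows)) CertD_gs)

/-- The verification is decidable by a primitive recursive function. -/
private theorem PrimF_dCheckE :
    PrimrecPred fun x : (ℕ × PCode × PCode) × CC => dCheckE x.1.1 0 x.1.2.1 x.1.2.2 x.2 := by
  have h2 : PrimrecPred fun x : (ℕ × PCode × PCode) × CC =>
      hcCheck (x.1.1 + 2 * 0) x.1.2.1 x.1.2.2 (toHC (x.1.1 + 2 * 0) x.1.2.1 x.1.2.2 x.2) :=
    primrecPred_hcCheck.comp (pair (pair PrimF_n (pair CertD_P CertD_Q)) PrimF_toHC)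
  have h3 : PrimrecPred fun x : (ℕ × PCode × PCode) × CC =>
      mu (s0E x.1.1 0 x.2.1.1.1 (2 * x.2.1.1.2) x.1.2.1 x.1.2.2 x.2.2.1.2) + 2 ≤ x.2.1.1.2 :=
    nat_le.comp (succ.comp (succ.comp (pr_mu PrimF_s0))) CertD_kap
  exact h2.and h3

/-- As `partrec_dSearch` in CD/CertD.lean. -/
theorem partrec_eSearch : Partrec eSearch := by
  have h1 : Primrec fun y : (ℕ × PCode × PCode) × ℕ => Encodable.decode (α := CC) y.2 :=
    Primrec.decode.comp Primrec.snd
  have h2 : PrimrecPred fun y : ((ℕ × PCode × PCode) × ℕ) × CC =>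
      dCheckE y.1.1.1 0 y.1.1.2.1 y.1.1.2.2 y.2 :=
    PrimF_dCheckE.comp (Primrec.pair (Primrec.fst.comp Primrec.fst) Primrec.snd)
  have h : Primrec₂ fun (R : ℕ × PCode × PCode) (m : ℕ) =>
      (Encodable.decode (α := CC) m).bind fun c =>
        if dCheckE R.1 0 R.2.1 R.2.2 c then some c else none :=
    Primrec.option_bind h1
      ((Primrec.ite h2 (Primrec.option_some.comp Primrec.snd) (Primrec.const none)).to₂)
  exact Partrec.rfindOpt h.to_comp

end Pool.Agent.Lib.MP_bbe012_lc.CE
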