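import Mathlib
import Pool.Agent.Lib.MP_bbe012_lc.CE.InitE
import Pool.Agent.Lib.MP_bbe012_lc.CE.DegE
import Pool.Agent.Lib.MP_bbe012_lc.CE.CertE
import Pool.Agent.Lib.MP_bbe012_lc.CE.PrimF
import Pool.Agent.Lib.MP_bbe012_lc.CD.Main

/-!
# The cubic polynomial on a polydisc attached to a certificate: assembly
-/

namespace Pool.Agent.Lib.MP_bbe012_lc.CE

open MeasureTheory Set HC CV CD

/-- As `coinD_spec` in CD/Main.lean. -/
theorem coinE_spec {n1 n2 : ℕ} {P Q : PCode} {c : CC} (hc : dCheckE n1 n2 P Q c)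
    {U : Set (Fin (n1 + 2 * n2) → ℝ)} (hU : U ⊆ boxDisc n1 n2) (h0 : volume (boxDisc n1 n2 \ U) = 0)
    (H : Region (pcPoly (n1 + 2 * n2) Q) U)
    (hint : IntegrableOn (fun x => pcEval (n1 + 2 * n2) P x / pcEval (n1 + 2 * n2) Q x) U) :
    (pcPoly ((coinE n1 n2 P Q c).1.1 + 2 * (coinE n1 n2 P Q c).1.2) (coinE n1 n2 P Q c).2).totalDegree ≤
      3 ∧ ∃ b : ℚ, b ≠ 0 ∧ (volume (posBD (coinE n1 n2 P Q c))).toReal =
        (1 / 2 + b * ((∫ x in U, pcEval (n1 + 2 * n2) P x / pcEval (n1 + 2 * n2) Q x) / Real.pi ^ n2)) *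
          (volume (boxDisc (coinE n1 n2 P Q c).1.1 (coinE n1 n2 P Q c).1.2)).toReal := by
  obtain ⟨hC0, c0, hc0, e0⟩ := st0E_spec hc hU h0 H hint
  have hκ : 2 ≤ c.1.1.2 := le_trans (Nat.le_add_left 2 _) hc.2
  obtain ⟨hC1, b, hb, e1⟩ := runD_diff 0 c.1.1.2 hC0 (c.1.1.2 - 2) (Nat.sub_le _ _)
  have hexp : 2 * (c.1.1.2 - (c.1.1.2 - 2)) = 4 := by omega
  rw [hexp] at e1
  have e2 : AA 0 (stFE n1 n2 P Q c).1.1 (hFE n1 n2 P Q c) 4 -
      cval (stFE n1 n2 P Q c).2 = b * (c0 *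
        ((∫ x in U, pcEval (n1 + 2 * n2) P x / pcEval (n1 + 2 * n2) Q x) / Real.pi ^ n2)) := by
    rw [← e0]
    refine Eq.trans ?_ e1
    change AA 0 (stFE n1 n2 P Q c).1.1 (hFE n1 n2 P Q c) 4 - _ =
      AA 0 (stFE n1 n2 P Q c).1.1 (flat (stFE n1 n2 P Q c).1.2) 4 - _
    congr 1
    unfold AA
    congr 1
    funext x
    rw [hFE, pcEval_flat_trS]
  obtain ⟨hm, hg⟩ := gad_spec (n := 0) (m := (stFE n1 n2 P Q c).1.1) (h := hFE n1 n2 P Q c)
    (q := (stFE n1 n2 P Q c).2) (tr_flat_trS _ _) hC1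
  rw [e2] at hg
  set M : ℚ := cval (mC 0 (stFE n1 n2 P Q c).1.1 (hFE n1 n2 P Q c)
    (stFE n1 n2 P Q c).2) with hM
  set N : ℕ := scC (hFE n1 n2 P Q c) (stFE n1 n2 P Q c).2 with hN
  have hNpos : 0 < N := by
    rw [hN]
    unfold scC
    omega
  have hNq : (0 : ℚ) < N := by exact_mod_cast hNpos
  refine ⟨deg_coinE hc hC1, -(b * c0) / (1632 * (N : ℚ) ^ 3 * M), ?_, ?_⟩
  · have h1 : (0 : ℚ) < b * c0 := mul_pos hb hc0
    have h2 : (0 : ℚ) < 1632 * (N : ℚ) ^ 3 * M := by positivity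
    exact div_ne_zero (neg_ne_zero.mpr h1.ne') h2.ne'
  · have h3 := AA_zero 0 ((stFE n1 n2 P Q c).1.1 + 4)
      (gadC 0 (stFE n1 n2 P Q c).1.1 (hFE n1 n2 P Q c) (stFE n1 n2 P Q c).2)
    have h4 : (0 : ℝ) < 2 ^ 0 * Real.pi ^ ((stFE n1 n2 P Q c).1.1 + 4) := by
      have := Real.pi_pos
      positivity
    have h5 : (volume (boxDisc (coinE n1 n2 P Q c).1.1 (coinE n1 n2 P Q c).1.2)).toReal =
        2 ^ 0 * Real.pi ^ ((stFE n1 n2 P Q c).1.1 + 4) := by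
      rw [volume_boxDisc, ENNReal.toReal_ofReal]
      · rfl
      · exact h4.le
    rw [h5]
    change (volume (posBD ((0, (stFE n1 n2 P Q c).1.1 + 4),
      gadC 0 (stFE n1 n2 P Q c).1.1 (hFE n1 n2 P Q c) (stFE n1 n2 P Q c).2))).toReal = _
    rw [hg, eq_div_iff h4.ne'] at h3
    rw [← h3]
    congr 1
    push_cast
    ring

/-- As `coinR_spec` in CD/Main.lean. -/
theorem coinRE_spec {R : ℕ × PCode × PCode} (h : ∀ x : Fin R.1 → ℝ, 1 ≤ pcEval R.1 R.2.2 x)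
    (hi : Integrable fun x : Fin R.1 → ℝ => pcEval R.1 R.2.1 x / pcEval R.1 R.2.2 x) {c : CC}
    (hc : c ∈ eSearch (prepR R)) :
    (coinRE (prepR R) c).1.1 = 0 ∧
    (pcPoly ((coinRE (prepR R) c).1.1 + 2 * (coinRE (prepR R) c).1.2)
      (coinRE (prepR R) c).2).totalDegree ≤ 3 ∧
    (2 * volume (posBD (coinRE (prepR R) c)) =
        volume (boxDisc (coinRE (prepR R) c).1.1 (coinRE (prepR R) c).1.2) ↔
      ∫ x : Fin R.1 → ℝ, pcEval R.1 R.2.1 x / pcEval R.1 R.2.2 x = 0) := by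
  have hcc : dCheckE (prepR R).1 0 (prepR R).2.1 (prepR R).2.2 c := mem_eSearch hc
  have hint := prepR_integral R h hi
  have hb0 : boxDisc (prepR R).1 0 = cube ((prepR R).1 + 2 * 0) := boxDisc_zero _
  obtain ⟨hdeg, b, hb, hv⟩ := coinE_spec (n1 := (prepR R).1) (n2 := 0) hcc
    (U := cube ((prepR R).1 + 2 * 0)) (by rw [hb0]) (by rw [hb0, sdiff_self]; exact measure_empty)
    (prepR_region R h) hint.1
  have hint2 : ∫ x in cube ((prepR R).1 + 2 * 0), pcEval ((prepR R).1 + 2 * 0) (prepR R).2.1 x /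
      pcEval ((prepR R).1 + 2 * 0) (prepR R).2.2 x =
      ∫ x : Fin R.1 → ℝ, pcEval R.1 R.2.1 x / pcEval R.1 R.2.2 x := hint.2
  rw [hint2, pow_zero, div_one] at hv
  refine ⟨rfl, hdeg, ?_⟩
  change 2 * volume (posBD (coinE (prepR R).1 0 (prepR R).2.1 (prepR R).2.2 c)) =
    volume (boxDisc (coinE (prepR R).1 0 (prepR R).2.1 (prepR R).2.2 c).1.1
      (coinE (prepR R).1 0 (prepR R).2.1 (prepR R).2.2 c).1.2) ↔ _
  set F := coinE (prepR R).1 0 (prepR R).2.1 (prepR R).2.2 c with hF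
  have hV : volume (boxDisc F.1.1 F.1.2) = ENNReal.ofReal (2 ^ F.1.1 * Real.pi ^ F.1.2) :=
    volume_boxDisc _ _
  have hpos : (0 : ℝ) < 2 ^ F.1.1 * Real.pi ^ F.1.2 := by
    have := Real.pi_pos
    positivity
  have hVt : volume (boxDisc F.1.1 F.1.2) ≠ ⊤ := by
    rw [hV]
    exact ENNReal.ofReal_ne_top
  have hVr : (volume (boxDisc F.1.1 F.1.2)).toReal = 2 ^ F.1.1 * Real.pi ^ F.1.2 := by
    rw [hV, ENNReal.toReal_ofReal hpos.le]
  have hPt : volume (posBD F) ≠ ⊤ :=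
    ne_top_of_le_ne_top hVt (measure_mono fun x hx => hx.1)
  rw [← ENNReal.toReal_eq_toReal_iff' (ENNReal.mul_ne_top ENNReal.ofNat_ne_top hPt) hVt,
    ENNReal.toReal_mul, ENNReal.toReal_ofNat, hv, hVr]
  have hbr : (b : ℝ) ≠ 0 := by exact_mod_cast hb
  set I := ∫ x : Fin R.1 → ℝ, pcEval R.1 R.2.1 x / pcEval R.1 R.2.2 x with hI
  constructor
  · intro h1
    have h2 : (b : ℝ) * I * (2 * (2 ^ F.1.1 * Real.pi ^ F.1.2)) = 0 := by
      linear_combination h1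
    rcases mul_eq_zero.mp h2 with h3 | h3
    · exact (mul_eq_zero.mp h3).resolve_left hbr
    · exact absurd h3 (mul_pos two_pos hpos).ne'
  · intro h1
    rw [h1]
    ring

/-- As `dom_searchD` in CD/Main.lean. -/
theorem dom_searchE {R : ℕ × PCode × PCode} (h : ∀ x : Fin R.1 → ℝ, 1 ≤ pcEval R.1 R.2.2 x) :
    (eSearch (prepR R)).Dom := by
  exact dom_eSearch (pcPoly_ne_zero_of_eval (x := 0) (prepR_pos R h 0 (zero_mem_cube _)).ne')

/-- As `exists_coin` in CD/Main.lean. -/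
theorem exists_coinE (I : IntCode) (hI : Admissible I) :
    ∃ (F : (ℕ × ℕ) × PCode) (b : ℚ), F.1.1 = 0 ∧
      (pcPoly (F.1.1 + 2 * F.1.2) F.2).totalDegree ≤ 3 ∧ b ≠ 0 ∧
      (volume (posBD F)).toReal = (1 / 2 + b * value I) * (volume (boxDisc F.1.1 F.1.2)).toReal := by
  have hr := ratOf_pad (N := I.1) (l := I.2.2.length + I.1) le_rfl le_rfl hI
  set n1 : ℕ := I.1 + 1 with hn1
  set n2 : ℕ := (I.2.2.length + I.1 + 2) + (I.2.2.length + I.1 + 2) with hn2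
  set r := ratOf (pad I.1 (I.2.2.length + I.1) I) with hrr
  obtain ⟨P, Q, HR, hint, hval⟩ := exists_mix n1 n2 (A := r.1) (B := r.2) hr.one_le hr.int
  have hne : (mixU n1 n2).Nonempty := by
    by_contra hcon
    rw [Set.not_nonempty_iff_eq_empty] at hcon
    have h1 := volume_mixU n1 n2
    rw [hcon, Set.sdiff_empty, volume_boxDisc, ENNReal.ofReal_eq_zero] at h1
    have h2 : (0 : ℝ) < 2 ^ n1 * Real.pi ^ n2 := by
      have := Real.pi_pos
      positivity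
    exact absurd h1 (not_le.mpr h2)
  obtain ⟨x, hx⟩ := hne
  have hQ : pcPoly (n1 + 2 * n2) Q ≠ 0 := pcPoly_ne_zero_of_eval (x := x) (HR.pos x hx).ne'
  obtain ⟨c, hc⟩ := exists_dCheckE P hQ
  obtain ⟨hdeg, b, hb, hv⟩ := coinE_spec hc (U := mixU n1 n2) (fun u hu => hu.1) (volume_mixU n1 n2)
    HR hint
  refine ⟨coinE n1 n2 P Q c, b, rfl, hdeg, hb, ?_⟩
  have h3 : ∫ x : Fin (n1 + n2) → ℝ, pcEval (n1 + n2) r.1 x / pcEval (n1 + n2) r.2 x =
      Real.pi ^ (2 * (I.2.2.length + I.1 + 2)) * value I := hr.val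
  have h4 : 2 * (I.2.2.length + I.1 + 2) = n2 := by
    rw [hn2]
    ring
  have h5 : (0 : ℝ) < Real.pi ^ n2 := by
    have := Real.pi_pos
    positivity
  rw [h4] at h3
  rw [hval, h3, mul_div_cancel_left₀ _ h5.ne'] at hv
  exact hv

end Pool.Agent.Lib.MP_bbe012_lc.CE
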